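import Mathlib
import Pool.Agent.Helper23_TS.Stmts

/-!
# Module LO: the local theorem
-/

open Polynomial

namespace Pool.Agent.TS.H10

open H12UBI H58UB Pool.Agent.TS

section
variable {V : Type} [CommRing V] [IsDomain V] [IsDiscreteValuationRing V] {g : ℕ}
  {h r ρ : V[X]} {c π : V}

theorem LevJ.mono {S : Shape g h r} {t t' j : ℕ} {w s : CR V h r} (hw : LevJ S c π t j w s)
    (ht : t' ≤ t) : LevJ S c π t' j w s :=
  ⟨hw.pr, hw.p0, hw.p1, hw.d0.of_dvd (pow_dvd_pow π ht), hw.d1.of_dvd (pow_dvd_pow π ht), hw.ne⟩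

theorem stepsJ (sp : SpStmt) (D : Dat g h r ρ c π) (S : Shape g h r) {j l t e : ℕ} {ε : V}
    (hj : 1 ≤ j) (hl : l.Prime) (hε : IsUnit ε) (hle : (l : V) = ε * π ^ e)
    (hte : t + e < l * t) {u s₀ : CR V h r} {ν : V} (hu : Exact S c (l * j) u s₀ ν)
    {w s : CR V h r} (hw : LevJ S c π t j w s) (t' : ℕ) : ∃ w' s', LevJ S c π t' j w' s' := by
  have h1 : ∀ i : ℕ, ∃ w' s', LevJ S c π (t + i) j w' s' := by
    intro i
    induction i with
    | zero => exact ⟨w, s, hw⟩
    | succ i ih =>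
      obtain ⟨w', s', hw'⟩ := ih
      refine sp V g h r ρ c π D S j l (t + i) e ε hj hl hε hle ?_ u s₀ ν hu w' s' hw'
      have h2 : l * (t + i) = l * t + l * i := by ring
      have h3 : 1 * i ≤ l * i := Nat.mul_le_mul_right i hl.one_lt.le
      have h4 : t + i + e < l * (t + i) := by rw [h2]; linarith
      exact h4
  obtain ⟨w', s', hw'⟩ := h1 t'
  exact ⟨w', s', LevJ.mono hw' (by omega)⟩

/-- LO -/
theorem lo (tr : TrStmt) (fi : FiStmt) (sp : SpStmt) (pw : PwStmt) (cl : ClStmt) : LoStmt := by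
  intro V _ _ _ g h r ρ c π D hfin S p e ε hp he hε hpe hU
  classical
  have hπ := D.irr
  obtain ⟨hN0, hN⟩ := Nat.find_spec hU
  have hmin : ∀ n, 0 < n → n < Nat.find hU → ¬ U S n := by
    intro n hn hlt h1
    exact Nat.find_min hU hlt ⟨hn, h1⟩
  set N := Nat.find hU with hNdef
  obtain ⟨u, hu, hu0, hu1⟩ := exists_primitive hπ hN
  obtain ⟨E, s₀, ν, a, b, hNE, hex, ha, hb, -, hab⟩ :=
    tr V g h r ρ c π D S N hN0 u hu hu0 hu1
  obtain ⟨m, hm0, hmB, hmdvd, hmlev⟩ := fi V g h r ρ c π D hfin S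
  obtain ⟨M, hM⟩ := hmdvd E a b ha hb hab
  have hM0 : M ≠ 0 := by
    rintro rfl
    rw [mul_zero] at hM
    rw [hM, mul_zero] at hNE
    omega
  have hkey : ∀ {l : ℕ}, l.Prime → l ∣ M → l = p := by
    intro l hl hlM
    by_contra hlp
    obtain ⟨M', rfl⟩ := hlM
    have hM'0 : M' ≠ 0 := by rintro rfl; simp at hM0
    have hlu : IsUnit (l : V) := by
      by_contra hnu
      have h1 : π ∣ (l : V) := by
        rw [← residue_eq_zero_iff' hπ, IsLocalRing.residue_eq_zero_iff]
        exact (IsLocalRing.mem_maximalIdeal _).2 hnu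
      have h2 : π ∣ (p : V) := by
        rw [hpe]
        exact dvd_mul_of_dvd_right (dvd_pow_self π he.ne') ε
      have h3 : IsCoprime (l : ℤ) (p : ℤ) :=
        Nat.isCoprime_iff_coprime.2 ((Nat.coprime_primes hl hp).2 hlp)
      obtain ⟨x, y, hxy⟩ := h3
      have h4 : (x : V) * (l : V) + (y : V) * (p : V) = 1 := by
        have := congrArg (Int.cast : ℤ → V) hxy
        push_cast at this
        exact this
      have h5 : π ∣ 1 := by
        rw [← h4]
        exact dvd_add (dvd_mul_of_dvd_right h1 _) (dvd_mul_of_dvd_right h2 _)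
      exact hπ.not_isUnit (isUnit_of_dvd_one h5)
    obtain ⟨w, s, hw⟩ := hmlev M' (Nat.pos_of_ne_zero hM'0)
    have hpos : 0 < M' * m := Nat.mul_pos (Nat.pos_of_ne_zero hM'0) hm0
    have hEl : E = l * (M' * m) := by rw [hM]; ring
    have h6 := stepsJ sp D S (j := M' * m) (t := 1) (e := 0) hpos hl hlu
      (by rw [pow_zero, mul_one]) (by have := hl.two_le; omega) (by rw [← hEl]; exact hex) hw
    refine hmin ((g + 1) * (M' * m)) (Nat.mul_pos (Nat.succ_pos g) hpos) ?_
      (cl V g h r ρ c π D S (M' * m) h6)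
    have h8 := hl.two_le
    have h9 : 0 < (g + 1) * (M' * m) := Nat.mul_pos (Nat.succ_pos g) hpos
    have h10 : N = l * ((g + 1) * (M' * m)) := by rw [hNE, hEl]; ring
    rw [h10]
    nlinarith
  have hMp := Nat.eq_prime_pow_of_unique_prime_dvd hM0 hkey
  generalize M.primeFactorsList.length = x at hMp
  have hlev : ∀ y : ℕ, ∃ t w s, LevJ S c π t (p ^ y * m) w s ∧ (p ^ y ≤ t ∨ t + e < p * t) := by
    intro y
    induction y with
    | zero =>
      obtain ⟨w₁, s₁, hw₁⟩ := hmlev 1 le_rfl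
      exact ⟨1, w₁, s₁, by rw [pow_zero]; exact hw₁, Or.inl (by simp)⟩
    | succ y ih =>
      obtain ⟨t, w, s, hw, ht⟩ := ih
      have hpb : p ^ (y + 1) * m = p * (p ^ y * m) := by ring
      rw [hpb]
      by_cases h1 : t + e < p * t
      · exact ⟨t, w ^ p, s ^ p, pw V g h r ρ c π D S p ε e hp hpe t t _ w s hw (by omega)
          (by omega), Or.inr h1⟩
      · have h2 : p ^ y ≤ t := by
          rcases ht with h | h
          · exact h
          · exact absurd h h1
        refine ⟨p * t, w ^ p, s ^ p, pw V g h r ρ c π D S p ε e hp hpe t (p * t) _ w s hw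
          (by omega) le_rfl, Or.inl ?_⟩
        rw [pow_succ']
        exact Nat.mul_le_mul_left p h2
  have hM2 : M ≤ 2 * e := by
    rcases Nat.eq_zero_or_pos x with ha | ha
    · rw [hMp, ha, pow_zero]; omega
    · obtain ⟨y, rfl⟩ : ∃ y, x = y + 1 := ⟨x - 1, by omega⟩
      obtain ⟨t, w, s, hw, ht⟩ := hlev y
      have hEp : E = p * (p ^ y * m) := by rw [hM, hMp]; ring
      have hpos : 0 < p ^ y * m := Nat.mul_pos (pow_pos hp.pos y) hm0
      have h1 : ¬ t + e < p * t := by
        intro h1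
        have h6 := stepsJ sp D S (j := p ^ y * m) hpos hp hε hpe h1
          (by rw [← hEp]; exact hex) hw
        refine hmin ((g + 1) * (p ^ y * m)) (Nat.mul_pos (Nat.succ_pos g) hpos) ?_
          (cl V g h r ρ c π D S (p ^ y * m) h6)
        have h8 := hp.two_le
        have h9 : 0 < (g + 1) * (p ^ y * m) := Nat.mul_pos (Nat.succ_pos g) hpos
        have h10 : N = p * ((g + 1) * (p ^ y * m)) := by rw [hNE, hEp]; ring
        rw [h10]
        nlinarith
      have h2 : p ^ y ≤ t := by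
        rcases ht with h | h
        · exact h
        · exact absurd h h1
      have h3 : 2 * t ≤ p * t := Nat.mul_le_mul_right t hp.two_le
      rw [hMp, pow_succ']
      have h4 : p * p ^ y ≤ p * t := Nat.mul_le_mul_left p h2
      omega
  refine ⟨N, hN0, ?_, hN⟩
  rw [hNE, hM]
  calc (g + 1) * (m * M) ≤ (g + 1) * (Nat.card (IsLocalRing.ResidueField V) ^ (g + 1) *
        (2 * e)) := Nat.mul_le_mul_left _ (Nat.mul_le_mul hmB hM2)
    _ = _ := by ring

end

end Pool.Agent.TS.H10
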