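import Mathlib
import Pool.Agent.Helper23_TS.Stmts

/-!
# Module TR: exact primitive elements are generators of a power of `J`
-/

open Polynomial

namespace Pool.Agent.TS.H10

open H12UBI H58UB Pool.Agent.TS

section
variable {A : Type} [CommRing A] {g : ℕ} {h r : A[X]}

theorem e0_yh (S : Shape g h r) : e0 S (yh h r) = ex A h + y0 S := by
  have h1 : (yh h r).re = h := rfl
  have h2 : (yh h r).im = 1 := rfl
  rw [e0_apply, h1, h2, map_one, one_mul]

theorem ge_yh (S : Shape g h r) : Ge (-((g + 1 : ℕ) : ℤ)) (e0 S (yh h r)) := by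
  rw [e0_yh]
  exact (ge_ex (le_of_eq S.deg)).add ((ge_y0 S).mono (by omega))

theorem isUnit_yh (S : Shape g h r) : IsUnit (y0 S + ex A h) := by
  refine isUnit_of_lead (n := -((g + 1 : ℕ) : ℤ)) ?_ ?_
  · exact ((ge_y0 S).mono (by omega)).add (ge_ex (le_of_eq S.deg))
  · rw [HahnSeries.coeff_add, (ge_y0 S) _ (by omega), coeff_ex_neg, ← S.deg, coeff_natDegree,
      S.monic]
    simp

/-- `y` is divisible by `c` at the first point at infinity -/
theorem y0_dvd (S : Shape g h r) {c : A} {ρ : A[X]} (hr : r = C c * ρ) :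
    ∃ Y, y0 S = HahnSeries.C c * Y := by
  obtain ⟨q, hq⟩ := (isUnit_yh S).exists_right_inv
  refine ⟨ex A ρ * q, ?_⟩
  have h1 : y0 S * (y0 S + ex A h) = HahnSeries.C c * ex A ρ := by
    have h2 : ex A r = HahnSeries.C c * ex A ρ := by rw [← ex_C, ← map_mul, ← hr]
    linear_combination y0_eq S + h2
  calc y0 S = y0 S * ((y0 S + ex A h) * q) := by rw [hq, mul_one]
    _ = (y0 S * (y0 S + ex A h)) * q := by ring
    _ = HahnSeries.C c * (ex A ρ * q) := by rw [h1]; ring

theorem re_dvd (S : Shape g h r) {c : A} {ρ : A[X]} (hr : r = C c * ρ) {s : CR A h r}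
    (hs : Ge 1 (e0 S s)) : C c ∣ s.re := by
  obtain ⟨Y, hY⟩ := y0_dvd S hr
  rw [Polynomial.C_dvd_iff_dvd_coeff]
  intro i
  have h1 : ex A s.re = e0 S s - HahnSeries.C c * (ex A s.im * Y) := by
    rw [e0_apply, hY]; ring
  have h2 := congrArg (fun q : LaurentSeries A => q.coeff (-(i : ℤ))) h1
  simp only [HahnSeries.coeff_sub, coeff_ex_neg, coeff_C_mul'] at h2
  rw [h2, hs _ (by omega), zero_sub]
  exact (dvd_mul_right _ _).neg_right

theorem mul_yh (s : CR A h r) : s * yh h r = ⟨s.re * h + r * s.im, s.re⟩ := by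
  have h1 : (yh h r).re = h := rfl
  have h2 : (yh h r).im = 1 := rfl
  refine QuadraticAlgebra.ext ?_ ?_
  · rw [QuadraticAlgebra.re_mul, h1, h2]
    ring
  · rw [QuadraticAlgebra.im_mul, h1, h2]
    ring

theorem pr_succ {c : A} {ρ : A[X]} (hr : r = C c * ρ) {j : ℕ} {u s : CR A h r}
    (hp : Pr h r c j u s) (hs : C c ∣ s.re) : ∃ s', Pr h r c (j + 1) u s' := by
  obtain ⟨a, ha⟩ := hs
  refine ⟨⟨a * h + ρ * s.im, a⟩, ?_⟩
  have h1 : s * yh h r = cst h r c * ⟨a * h + ρ * s.im, a⟩ := by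
    rw [mul_yh]
    refine QuadraticAlgebra.ext ?_ ?_
    · rw [QuadraticAlgebra.re_mul, cst_re, cst_im]
      simp only
      linear_combination h * ha + s.im * hr
    · rw [QuadraticAlgebra.im_mul, cst_re, cst_im]
      simp only
      linear_combination ha
  unfold Pr at hp ⊢
  rw [pow_succ, ← mul_assoc, hp, mul_assoc, h1, pow_succ, map_mul]
  ring

end

section
variable {V : Type} [CommRing V] [IsDomain V] [IsDiscreteValuationRing V] {g : ℕ}
  {h r ρ : V[X]} {c π : V}

omit [IsDiscreteValuationRing V] in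
theorem ge_pr (S : Shape g h r) (hc : c ≠ 0) {j : ℕ} {u s : CR V h r} (hp : Pr h r c j u s)
    {n : ℤ} (hu : Ge n (e0 S u)) : Ge (n - (g + 1 : ℕ) * j) (e0 S s) := by
  have h1 := congrArg (e0 S) hp
  rw [map_mul, map_mul, map_pow, e0_cst] at h1
  refine ge_of_C_mul (pow_ne_zero j hc) ?_
  rw [← h1]
  exact (hu.mul ((ge_yh S).pow j)).mono (by push_cast; linarith)

theorem exists_pr (S : Shape g h r) (hc : c ≠ 0) (hr : r = C c * ρ) {u : CR V h r} {N : ℕ}
    (hu : Ge (N : ℤ) (e0 S u)) : ∀ j : ℕ, (g + 1) * j < N + (g + 1) → ∃ s, Pr h r c j u s := by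
  intro j
  induction j with
  | zero =>
    intro _
    refine ⟨u, ?_⟩
    unfold Pr
    rw [pow_zero, pow_zero, map_one, mul_one, one_mul]
  | succ j ih =>
    intro hj
    have h1 : (g + 1) * j < N := by
      have : (g + 1) * (j + 1) = (g + 1) * j + (g + 1) := by ring
      omega
    obtain ⟨s, hs⟩ := ih (by omega)
    refine pr_succ hr hs (re_dvd S hr ((ge_pr S hc hs hu).mono ?_))
    have h2 : (((g + 1) * j : ℕ) : ℤ) < N := by exact_mod_cast h1
    push_cast at h2 ⊢
    linarith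

/-! Reduction -/

theorem map_r (D : Dat g h r ρ c π) : r.map (IsLocalRing.residue V) = 0 := by
  have h1 : (IsLocalRing.residue V) c = 0 := (residue_eq_zero_iff' D.irr c).2 D.pc
  rw [D.hr, Polynomial.map_mul, Polynomial.map_C, h1, map_zero, zero_mul]

theorem y0_red (D : Dat g h r ρ c π) (S : Shape g h r) :
    y0 (smap S (IsLocalRing.residue V)) = 0 := by
  refine unique_y0 (smap S (IsLocalRing.residue V)) (ge_y0 _) (ge_zero 1) (y0_eq _) ?_
  rw [map_r D, map_zero, zero_pow two_ne_zero, mul_zero, add_zero]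

theorem e0_red (D : Dat g h r ρ c π) (S : Shape g h r) (z : CR V h r) :
    lmap (IsLocalRing.residue V) (e0 S z) = ex (IsLocalRing.ResidueField V) (rd V z.re) := by
  rw [lmap_e0, e0_apply, y0_red D S, mul_zero, add_zero, cmap_re]

theorem e1_red (D : Dat g h r ρ c π) (S : Shape g h r) (z : CR V h r) :
    lmap (IsLocalRing.residue V) (e1 S z) =
      ex (IsLocalRing.ResidueField V) (rd V (z.re - h * z.im)) := by
  rw [lmap_e1, e1_apply, y0_red D S, cmap_re, cmap_im, rd, Polynomial.map_sub,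
    Polynomial.map_mul, map_sub, map_mul]
  ring

theorem h_red_deg (S : Shape g h r) : (rd V h).natDegree = g + 1 := by
  rw [rd, S.monic.natDegree_map, S.deg]

theorem not_unit_h (S : Shape g h r) : ¬ IsUnit (rd V h) := by
  intro hu
  have := natDegree_eq_zero_of_isUnit hu
  rw [h_red_deg S] at this
  omega

theorem rho_ne (D : Dat g h r ρ c π) : rd V ρ ≠ 0 := by
  intro h0
  have h1 := D.cop
  rw [h0, isCoprime_zero_right] at h1
  exact not_unit_h D.shape h1

theorem isCoprime_of_isUnit {R : Type*} [CommRing R] {x y : R} (hy : IsUnit y) :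
    IsCoprime x y := by
  obtain ⟨w, hw⟩ := hy.exists_right_inv
  exact ⟨0, w, by linear_combination hw⟩

theorem norm_red (D : Dat g h r ρ c π) (z : CR V h r) :
    rd V z.norm = rd V z.re * rd V (z.re - h * z.im) := by
  rw [QuadraticAlgebra.norm_def]
  have h1 := map_r D
  simp only [rd, Polynomial.map_sub, Polynomial.map_add, Polynomial.map_mul, Polynomial.map_neg]
  linear_combination (-(z.im.map (IsLocalRing.residue V)) ^ 2) * h1

/-- TR -/
theorem tr (st : StStmt) : TrStmt := by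
  intro V _ _ _ g h r ρ c π D S N hN u hprim hu0 hu1
  -- the exponent
  set e : ℕ := (N + g) / (g + 1) with he
  have he1 : (g + 1) * e < N + (g + 1) := by
    have := Nat.mul_div_le (N + g) (g + 1)
    rw [← he] at this
    omega
  have he2 : N ≤ (g + 1) * e := by
    have h1 := Nat.div_add_mod (N + g) (g + 1)
    have h2 := Nat.mod_lt (N + g) (Nat.succ_pos g)
    rw [← he] at h1
    have h3 : (N + g) % (g + 1) < g + 1 := h2
    omega
  obtain ⟨s, hs⟩ := exists_pr S D.c0 D.hr hu0 e he1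
  obtain ⟨b, hb1, hb2⟩ := st V g h r ρ c π D e u s hs
  -- reduction of `u`
  have hure : rd V u.re = 0 := by
    refine eq_zero_of_ge_one ?_
    rw [← e0_red D S]
    exact (ge_lmap hu0 _).mono (by omega)
  have hb0 : b ≠ 0 := by
    rintro rfl
    apply hprim
    have h1 : rd V h * rd V u.im = 0 := by
      have h2 := hb1
      rw [mul_zero, rd, Polynomial.map_sub, Polynomial.map_mul] at h2
      have h3 : rd V u.re - rd V h * rd V u.im = 0 := h2
      rw [hure] at h3
      linear_combination -h3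
    have hh : rd V h ≠ 0 := (S.monic.map _).ne_zero
    have h4 : rd V u.im = 0 := (mul_eq_zero.1 h1).resolve_left hh
    exact QuadraticAlgebra.ext hure h4
  have hdeg : (rd V h ^ e * b).natDegree ≤ N := by
    rw [← hb1]
    refine natDegree_le_of_ge ?_
    rw [← e1_red D S]
    exact ge_lmap hu1 _
  have hhm : (rd V h).Monic := S.monic.map _
  rw [(hhm.pow e).natDegree_mul' hb0, hhm.natDegree_pow, h_red_deg S] at hdeg
  have hNe : N = (g + 1) * e := by
    have : e * (g + 1) = (g + 1) * e := mul_comm _ _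
    omega
  have hbdeg : b.natDegree = 0 := by
    have : e * (g + 1) = (g + 1) * e := mul_comm _ _
    omega
  obtain ⟨b₀, rfl⟩ : ∃ b₀, b = C b₀ := ⟨_, eq_C_of_natDegree_eq_zero hbdeg⟩
  have hb₀ : b₀ ≠ 0 := fun h0 => hb0 (by rw [h0, map_zero])
  -- the cofactor
  have hs0 : Ge 0 (e0 S s) := by
    refine (ge_pr S D.c0 hs hu0).mono ?_
    have : (N : ℤ) = ((g + 1 : ℕ) : ℤ) * (e : ℤ) := by exact_mod_cast hNe
    rw [this, sub_self]
  obtain ⟨a, ha⟩ : ∃ a, rd V s.re = C a := by
    refine ⟨_, eq_C_of_ge_zero ?_⟩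
    rw [← e0_red D S]
    exact ge_lmap hs0 _
  have hsub : C a - (-rd V ρ) ^ e * C b₀ = rd V h * rd V s.im := by
    rw [← hb2, ← ha]
    simp only [rd, Polynomial.map_sub, Polynomial.map_mul]
    ring
  have ha0 : a ≠ 0 := by
    rintro rfl
    rw [map_zero, zero_sub] at hsub
    have h1 : rd V h ∣ (-rd V ρ) ^ e * C b₀ := by
      have : (-rd V ρ) ^ e * C b₀ = rd V h * (-rd V s.im) := by linear_combination -hsub
      exact ⟨_, this⟩
    have h2 : IsCoprime (rd V h) ((-rd V ρ) ^ e * C b₀) := by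
      refine IsCoprime.mul_right (IsCoprime.pow_right D.cop.neg_right) ?_
      exact isCoprime_of_isUnit (isUnit_C.2 (IsUnit.mk0 b₀ hb₀))
    exact not_unit_h S (h2.isUnit_of_dvd' dvd_rfl h1)
  -- the norm
  obtain ⟨ν₀, hν₀⟩ : ∃ ν₀, u.norm = C ν₀ := by
    refine ⟨_, eq_C_of_ge_zero ?_⟩
    rw [← e0_mul_e1 S]
    exact (hu0.mul hu1).mono (by omega)
  have hnyh : (yh h r).norm = -r := by
    rw [QuadraticAlgebra.norm_def]
    have h1 : (yh h r).re = h := rfl
    have h2 : (yh h r).im = 1 := rfl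
    rw [h1, h2]
    ring
  have hncst : ∀ x : V, (cst h r x).norm = C x * C x := by
    intro x
    rw [QuadraticAlgebra.norm_def, cst_re, cst_im]
    ring
  have hnorm : C ν₀ * (-ρ) ^ e = C (c ^ e) * s.norm := by
    have h1 := congrArg QuadraticAlgebra.norm hs
    rw [map_mul, map_mul, map_pow, hnyh, hν₀, hncst] at h1
    have h2 : (C (c ^ e) : V[X]) ≠ 0 := C_ne_zero.2 (pow_ne_zero e D.c0)
    refine mul_left_cancel₀ h2 ?_
    have h3 : (-r) ^ e = C (c ^ e) * (-ρ) ^ e := by
      have h4 : -r = C c * (-ρ) := by linear_combination -D.hr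
      rw [h4, mul_pow, ← map_pow]
    rw [h3] at h1
    linear_combination h1
  -- a unit coefficient
  have hρe : (rd V ((-ρ) ^ e)) ≠ 0 := by
    rw [rd, Polynomial.map_pow, Polynomial.map_neg]
    exact pow_ne_zero e (neg_ne_zero.2 (rho_ne D))
  obtain ⟨i, hi⟩ : ∃ i, (rd V ((-ρ) ^ e)).coeff i ≠ 0 := by
    by_contra hcon
    push Not at hcon
    exact hρe (Polynomial.ext (by simpa using hcon))
  rw [rd, coeff_map] at hi
  have hiu : IsUnit (((-ρ) ^ e).coeff i) := (IsLocalRing.residue_ne_zero_iff_isUnit _).1 hi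
  obtain ⟨ν, hν⟩ : c ^ e ∣ ν₀ := by
    have h1 := congrArg (fun q => q.coeff i) hnorm
    simp only [coeff_C_mul] at h1
    obtain ⟨w, hw⟩ := hiu.exists_right_inv
    refine ⟨s.norm.coeff i * w, ?_⟩
    linear_combination w * h1 - ν₀ * hw
  have hnorm2 : C ν * (-ρ) ^ e = s.norm := by
    have h2 : (C (c ^ e) : V[X]) ≠ 0 := C_ne_zero.2 (pow_ne_zero e D.c0)
    refine mul_left_cancel₀ h2 ?_
    rw [← hnorm, hν, map_mul]
    ring
  have hνu : IsUnit ν := by
    refine (IsLocalRing.residue_ne_zero_iff_isUnit _).1 ?_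
    intro h0
    have h1 : rd V s.norm = 0 := by
      rw [← hnorm2, rd, Polynomial.map_mul, Polynomial.map_C, h0, map_zero, zero_mul]
    rw [norm_red D, ha, hb2] at h1
    have h3 : (C a : (IsLocalRing.ResidueField V)[X]) ≠ 0 := C_ne_zero.2 ha0
    have h4 : (C b₀ : (IsLocalRing.ResidueField V)[X]) ≠ 0 := C_ne_zero.2 hb₀
    exact mul_ne_zero h3 (mul_ne_zero (pow_ne_zero e (neg_ne_zero.2 (rho_ne D))) h4) h1
  refine ⟨e, s, ν, a, b₀, hNe, ⟨hs, hs0, ?_, hνu, ?_⟩, ha0, hb₀, ha, ⟨_, hsub⟩⟩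
  · rw [← hNe]
    exact hu1
  · rw [← QuadraticAlgebra.algebraMap_norm_eq_mul_star, hν₀, hν]
    rfl

end

end Pool.Agent.TS.H10
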